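import Mathlib
import Pool.Agent.R816.WeakPsc

/-!
# A weakly pseudocompact `ω`-bounded group which is not precompact

The group is `G = ℤ × Σ`, where `Σ` is the group of the elements of countable support in `(ℤ/2)^ℝ`.
-/

set_option autoImplicit false

open Topology Filter Set Pool.Agent.R816.WeakPsc

namespace Pool.Agent.Results.MP_45eb7b_gt.NotPrecompact

/-- `G` is `ω`-bounded (in Guran's sense): for every neighbourhood `U` of the identity there is a
countable set `C` with `G = C + U`. -/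
def OmegaBounded (G : Type) [AddGroup G] [TopologicalSpace G] : Prop :=
  ∀ U ∈ 𝓝 (0 : G), ∃ C : Set G, C.Countable ∧ ∀ g : G, ∃ c ∈ C, ∃ u ∈ U, g = c + u

/-- `G` is precompact: for every neighbourhood `U` of the identity there is a finite set `F` with
`G = F + U`. -/
def Precompact (G : Type) [AddGroup G] [TopologicalSpace G] : Prop :=
  ∀ U ∈ 𝓝 (0 : G), ∃ F : Set G, F.Finite ∧ ∀ g : G, ∃ c ∈ F, ∃ u ∈ U, g = c + u

theorem omegaBounded (I : Type) : OmegaBounded (ℤ × sig I) := by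
  classical
  intro U hU
  obtain ⟨U₁, hU₁, U₂, hU₂, hU12⟩ := mem_nhds_prod_iff.1 (show U ∈ 𝓝 ((0 : ℤ), (0 : sig I)) from hU)
  obtain ⟨V, hV, hV2⟩ := mem_nhds_subtype _ _ _ |>.1 hU₂
  obtain ⟨O, hOV, hO, h0O⟩ := mem_nhds_iff.1 hV
  obtain ⟨F, hF⟩ := exists_finset hO h0O
  let A : Set I := (F : Set I)
  have hA : A.Countable := F.countable_toSet
  have hAc : Countable A := hA.to_subtype
  have hAf : Finite A := F.finite_toSet
  refine ⟨range (fun q : ℤ × (A → ZMod 2) => ((q.1, ⟨R816.WeakPsc.ext A q.2, ext_mem hA q.2⟩) : ℤ × sig I)),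
    countable_range _, ?_⟩
  rintro ⟨m, h⟩
  refine ⟨(m, ⟨R816.WeakPsc.ext A (fun a => (h : I → ZMod 2) a), ext_mem hA _⟩),
    ⟨(m, fun a => (h : I → ZMod 2) a), rfl⟩,
    (0, h - ⟨R816.WeakPsc.ext A (fun a => (h : I → ZMod 2) a), ext_mem hA _⟩), ?_, ?_⟩
  · refine hU12 ⟨mem_of_mem_nhds hU₁, ?_⟩
    refine hV2 ?_
    show ((h - ⟨R816.WeakPsc.ext A (fun a => (h : I → ZMod 2) a), ext_mem hA _⟩ : sig I) : I → ZMod 2) ∈ V
    refine hOV (hF _ ?_)
    intro i hi
    have hi' : i ∈ A := hi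
    show (h : I → ZMod 2) i - R816.WeakPsc.ext A (fun a => (h : I → ZMod 2) a) i = 0
    simp [R816.WeakPsc.ext, hi']
  · ext1
    · simp
    · simp

theorem not_precompact (H : Type) [AddGroup H] [TopologicalSpace H] : ¬ Precompact (ℤ × H) := by
  intro h
  have hU : {g : ℤ × H | g.1 = 0} ∈ 𝓝 (0 : ℤ × H) := by
    refine IsOpen.mem_nhds ?_ rfl
    exact (isOpen_discrete ({0} : Set ℤ)).preimage continuous_fst
  obtain ⟨F, hF, hF2⟩ := h _ hU
  have h1 : (Prod.fst '' F) = univ := by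
    refine eq_univ_of_forall fun m => ?_
    obtain ⟨c, hc, u, hu, e⟩ := hF2 (m, 0)
    refine ⟨c, hc, ?_⟩
    have h2 := congrArg Prod.fst e
    have h3 : u.1 = 0 := hu
    simp only [Prod.fst_add, h3, add_zero] at h2
    exact h2.symm
  have h2 : (univ : Set ℤ).Finite := h1 ▸ hF.image _
  exact infinite_univ h2

/-- There is an (abelian) Hausdorff topological group which is weakly pseudocompact and `ω`-bounded
but not precompact. -/
theorem result : ∃ (G : Type) (_ : AddCommGroup G) (_ : TopologicalSpace G),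
    IsTopologicalAddGroup G ∧ T2Space G ∧ WeaklyPseudocompact G ∧ OmegaBounded G ∧
      ¬ Precompact G :=
  ⟨ℤ × sig ℝ, inferInstance, inferInstance, inferInstance, inferInstance,
    weaklyPseudocompact ℝ, omegaBounded ℝ, not_precompact _⟩

end Pool.Agent.Results.MP_45eb7b_gt.NotPrecompact
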